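import Mathlib

namespace Pool.Agent.MP_b8fe60_gt

open Set Filter Topology

/-- `f` is a difference of two convex functions on `C` -/
def IsDCOn {X : Type} [AddCommGroup X] [Module ℝ X] (C : Set X) (f : X → ℝ) : Prop :=
  ∃ g h : X → ℝ, ConvexOn ℝ C g ∧ ConvexOn ℝ C h ∧ ∀ x ∈ C, f x = g x - h x

/-- `F` is a DC mapping on `C` -/
def IsDCMapOn {X Y : Type} [AddCommGroup X] [Module ℝ X] [AddCommGroup Y] [Module ℝ Y]
    (C : Set X) (F : X → Y) : Prop :=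
  ∀ l : Y →ₗ[ℝ] ℝ, IsDCOn C (fun x => l (F x))

/-- the Clarke subgradient -/
def clarke {X : Type} [NormedAddCommGroup X] [InnerProductSpace ℝ X] [CompleteSpace X]
    (f : X → ℝ) (x : X) : Set X :=
  closure (convexHull ℝ {u | ∃ y : ℕ → X, Tendsto y atTop (𝓝 x) ∧
    (∀ i, DifferentiableAt ℝ f (y i)) ∧ Tendsto (fun i => gradient f (y i)) atTop (𝓝 u)})

/-- `f` is an aura for `A` -/
def IsAura {X : Type} [NormedAddCommGroup X] [InnerProductSpace ℝ X] [CompleteSpace X]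
    (f : X → ℝ) (A : Set X) : Prop :=
  LocallyLipschitz f ∧ (∀ x, 0 ≤ f x) ∧ A = f ⁻¹' {0} ∧
    ¬ ∃ (x : X) (y u : ℕ → X), Tendsto y atTop (𝓝 x) ∧ Tendsto u atTop (𝓝 0) ∧ f x = 0 ∧
        ∀ i, 0 < f (y i) ∧ u i ∈ clarke f (y i)

/-- `A` has an aura that is DC on the whole space -/
def IsWDC {X : Type} [NormedAddCommGroup X] [InnerProductSpace ℝ X] [CompleteSpace X]
    (A : Set X) : Prop :=
  ∃ f, IsDCOn univ f ∧ IsAura f A

/-- the graph of `φ : W → Wᗮ` over `U` -/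
def graphOver {X : Type} [NormedAddCommGroup X] [InnerProductSpace ℝ X] (W : Submodule ℝ X)
    (φ : W → Wᗮ) (U : Set W) : Set X :=
  (fun w : W => w.1 + (φ w).1) '' U

/-- `S` is the graph of a DC mapping over an open ball of a `k`-dimensional subspace -/
def IsDCGraph {X : Type} [NormedAddCommGroup X] [InnerProductSpace ℝ X] (k : ℕ) (S : Set X) :
    Prop :=
  ∃ (W : Submodule ℝ X) (w₀ : W) (r : ℝ) (φ : W → Wᗮ), Module.finrank ℝ W = k ∧ 0 < r ∧
    IsDCMapOn (Metric.ball w₀ r) φ ∧ S = graphOver W φ (Metric.ball w₀ r)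

/-- `T` is a DC manifold of dimension `k` -/
def IsDCManifold {X : Type} [NormedAddCommGroup X] [InnerProductSpace ℝ X] (k : ℕ) (T : Set X) :
    Prop :=
  T.Nonempty ∧ (k = Module.finrank ℝ X → IsOpen T) ∧
    (k = 0 → ∀ a ∈ T, ∃ O, IsOpen O ∧ T ∩ O = {a}) ∧
    (0 < k → k < Module.finrank ℝ X →
      ∀ a ∈ T, ∃ S, IsDCGraph k S ∧ a ∈ S ∧ ∃ O, IsOpen O ∧ S = T ∩ O)

end Pool.Agent.MP_b8fe60_gt
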